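import Pool.Agent.R132.Slir

set_option autoImplicit false

/-!
# `slir(D) ≤ 28` for every digraph `D`

A digraph on the finite vertex set `V` is given by its arc set `A : Finset (V × V)`, a set of ordered
pairs of distinct vertices (both `(u, v)` and `(v, u)` may be present).

Proof. Partition the vertices into nine parts `V_i` so that no vertex has fewer arcs to another part
than to its own part (an extremal partition).  The part `V_i` controls the arcs to
`V_{i+1}, …, V_{i+4}` (indices modulo 9), so every `x ∈ V_i` has at least `4 d(x)` controlled arcs,
`d(x)` being the number of arcs inside `V_i` at `x`; at least `2 d(x)` of them all leave `x` (type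
out) or all enter `x` (type in).  Arcs inside a part between vertices of different types form two
directed cuts.  The arcs inside `V_i` between vertices of type out get the colour `α_i`, and a
suitable number of controlled arcs leaving `x` gets the colour `α_i` too: this allows `2 d(x) + 1`
consecutive values of the balanced degree of `x`, more than `d(x)` of them nonnegative, so the values
can be chosen greedily, nonnegative and different on adjacent vertices, while all heads of
the added arcs have negative balanced degree.  Type in is symmetric, and the remaining arcs join
different parts and form eight directed cuts: `9 + 9 + 2 + 8 = 28` colours.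
-/

open Finset

namespace Pool.Agent.Results.MP_5851c7_co.TwentyEightColors

/-- `d⁺_B(v)`: the number of arcs of `B` leaving `v`. -/
def outDeg {V : Type} [DecidableEq V] (B : Finset (V × V)) (v : V) : ℕ :=
  (B.filter fun a => a.1 = v).card

/-- `d⁻_B(v)`: the number of arcs of `B` entering `v`. -/
def inDeg {V : Type} [DecidableEq V] (B : Finset (V × V)) (v : V) : ℕ :=
  (B.filter fun a => a.2 = v).card

/-- The balanced degree `b_B(v) = d⁺_B(v) - d⁻_B(v)`. -/
def balDeg {V : Type} [DecidableEq V] (B : Finset (V × V)) (v : V) : ℤ :=
  (outDeg B v : ℤ) - (inDeg B v : ℤ)

/-- `B` is strong locally irregular: `b_B(u) ≠ b_B(v)` for every arc `(u, v) ∈ B`. -/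
def StrongLocallyIrregular {V : Type} [DecidableEq V] (B : Finset (V × V)) : Prop :=
  ∀ u v, (u, v) ∈ B → balDeg B u ≠ balDeg B v

/-- `f` is a strong locally irregular colouring of the digraph `A` with `k` colours. -/
def IsSLIColoring {V : Type} [DecidableEq V] (A : Finset (V × V)) (k : ℕ)
    (f : V × V → Fin k) : Prop :=
  ∀ i, StrongLocallyIrregular (A.filter fun a => f a = i)

/-- The strong locally irregular chromatic index: the least number of colours. -/
noncomputable def slir {V : Type} [DecidableEq V] (A : Finset (V × V)) : ℕ :=
  sInf {k | ∃ f : V × V → Fin k, IsSLIColoring A k f}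

/-- Every digraph has a strong locally irregular colouring with `28` colours; hence
`slir(D) ≤ 28` for every digraph `D`. -/
theorem result : ∀ (V : Type) [Fintype V] [DecidableEq V] (A : Finset (V × V)),
    (∀ a ∈ A, a.1 ≠ a.2) →
      (∃ f : V × V → Fin 28, IsSLIColoring A 28 f) ∧ slir A ≤ 28 := by
  intro V _ _ A hA
  obtain ⟨f, hf⟩ := Pool.Agent.R132.Slir.exists_coloring A hA
  have h : IsSLIColoring A 28 f := fun i u v huv => hf i (u, v) huv
  exact ⟨⟨f, h⟩, Nat.sInf_le ⟨f, h⟩⟩

end Pool.Agent.Results.MP_5851c7_co.TwentyEightColors
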